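import Pool.Agent.Y391.LT.Main

/-!
# Even potentials are optimal on the line, for every exponent

In dimension one the optimal Lieb-Thirring ratio over the even potentials equals the optimal ratio
over all potentials, for every `γ ≥ 1/2` (for `γ < 1/2` the ratio is infinite). Proof: cut the
potential off to `[-R, R]` and put two mirror copies at a distance `L > R` of the origin; the
negative eigenvalues and the phase space integral both double.
-/

set_option autoImplicit false

namespace Pool.Agent.Results.MP_d5a362_mp.AllGammaLine

open Pool.Agent.Y391.LT

/-- **In dimension one, `R_1^rad(γ) = R_1(γ)` for every `γ ≥ 1/2`.** -/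
theorem result (γ : ℝ) (hγ : 1 / 2 ≤ γ) : ratioEven γ = ratio γ := main γ hγ

end Pool.Agent.Results.MP_d5a362_mp.AllGammaLine
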